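import Pool.Agent.Y315.NL.Stm

/-!
# The backward step on the whole line loses no zeros
-/

set_option autoImplicit false

open MeasureTheory Set Filter Topology

noncomputable section

namespace Pool.Agent.Y495.NL

open Pool.Agent.Y315.NL

/-- second order necessary condition at a local maximum -/
lemma sd_max {g g1 g2 : ℝ → ℝ} (h1 : ∀ x, HasDerivAt g (g1 x) x)
    (h2 : ∀ x, HasDerivAt g1 (g2 x) x) {s : ℝ} (hs : IsLocalMax g s) : g2 s ≤ 0 := by
  by_contra hc
  push Not at hc
  have e1 : deriv g = g1 := funext fun x => (h1 x).deriv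
  have e2 : deriv g1 = g2 := funext fun x => (h2 x).deriv
  have hmin : IsLocalMin g s :=
    isLocalMin_of_deriv_deriv_pos (by rw [e1, e2]; exact hc) hs.deriv_eq_zero (h1 s).continuousAt
  have he : g =ᶠ[𝓝 s] fun _ => g s := by
    filter_upwards [hs, hmin] with x hx hy
    exact le_antisymm hx hy
  have h3 : deriv (deriv g) s = 0 := by
    have := he.deriv.deriv_eq
    simpa using this
  rw [e1, e2] at h3
  linarith

variable {w w1 w2 V : ℝ → ℝ} {K : ℝ}

/-- a good point: `w` and `(K - V) w - w''` have the same sign -/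
def Gd (w w2 V : ℝ → ℝ) (K s : ℝ) : Prop := 0 < w s * ((K - V s) * w s - w2 s)

lemma good_of_max (h1 : ∀ x, HasDerivAt w (w1 x) x) (h2 : ∀ x, HasDerivAt w1 (w2 x) x)
    (hV : ∀ x, V x < K) {s : ℝ} (hs : IsLocalMax (fun x => w x ^ 2) s) (hw : w s ≠ 0) :
    Gd w w2 V K s := by
  have a1 : ∀ x, HasDerivAt (fun x => w x ^ 2) (2 * w x * w1 x) x := by
    intro x
    have := (h1 x).fun_pow 2
    simpa using this
  have a2 : ∀ x, HasDerivAt (fun x => 2 * w x * w1 x) (2 * w1 x * w1 x + 2 * w x * w2 x) x := by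
    intro x
    exact ((h1 x).const_mul 2).mul (h2 x)
  have h := sd_max a1 a2 hs
  unfold Gd
  have hp : 0 < (K - V s) * (w s) ^ 2 := by
    have := hV s
    have h3 : 0 < w s ^ 2 := by positivity
    nlinarith
  nlinarith [sq_nonneg (w1 s)]

/-- between two zeros: good point or identically zero -/
lemma good_Icc (h1 : ∀ x, HasDerivAt w (w1 x) x) (h2 : ∀ x, HasDerivAt w1 (w2 x) x)
    (hV : ∀ x, V x < K) {a b : ℝ} (hab : a < b) (ha : w a = 0) (hb : w b = 0) :
    (∀ x ∈ Icc a b, w x = 0) ∨ ∃ s, a < s ∧ s < b ∧ Gd w w2 V K s := by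
  have hc : Continuous w := continuous_iff_continuousAt.2 fun x => (h1 x).continuousAt
  obtain ⟨s, hs, hm⟩ := isCompact_Icc.exists_isMaxOn (nonempty_Icc.2 hab.le)
    (hc.pow 2).continuousOn
  by_cases h0 : w s = 0
  · left
    intro x hx
    have : w x ^ 2 ≤ w s ^ 2 := hm hx
    rw [h0] at this
    nlinarith
  · right
    have hsa : a < s := lt_of_le_of_ne hs.1 (by rintro rfl; exact h0 ha)
    have hsb : s < b := lt_of_le_of_ne hs.2 (by rintro rfl; exact h0 hb)
    exact ⟨s, hsa, hsb, good_of_max h1 h2 hV (hm.isLocalMax (Icc_mem_nhds hsa hsb)) h0⟩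

/-- to the right of a zero: good point or identically zero -/
lemma good_Ici (h1 : ∀ x, HasDerivAt w (w1 x) x) (h2 : ∀ x, HasDerivAt w1 (w2 x) x)
    (hV : ∀ x, V x < K) {ℓ : ℝ} (hVt : Tendsto V atTop (𝓝 0)) (hwt : Tendsto w atTop (𝓝 ℓ))
    (hw2 : Tendsto w2 atTop (𝓝 0)) (hK : 0 < K) {a : ℝ} (ha : w a = 0) :
    (∀ x, a ≤ x → w x = 0) ∨ ∃ s, a < s ∧ Gd w w2 V K s := by
  have hc : Continuous w := continuous_iff_continuousAt.2 fun x => (h1 x).continuousAt
  by_cases hx : ∃ x₀, a ≤ x₀ ∧ ℓ ^ 2 < w x₀ ^ 2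
  · right
    obtain ⟨x₀, hax, hlx⟩ := hx
    have hev : ∀ᶠ x in atTop, w x ^ 2 < w x₀ ^ 2 := (hwt.pow 2).eventually_lt_const hlx
    obtain ⟨N, hN⟩ := eventually_atTop.1 hev
    set b := max N (x₀ + 1) with hb
    have hbx : x₀ < b := lt_of_lt_of_le (lt_add_one _) (le_max_right _ _)
    have hwb : w b ^ 2 < w x₀ ^ 2 := hN b (le_max_left _ _)
    obtain ⟨s, hs, hm⟩ := isCompact_Icc.exists_isMaxOn (nonempty_Icc.2 (hax.trans hbx.le))
      (hc.pow 2).continuousOn
    have h3 : w x₀ ^ 2 ≤ w s ^ 2 := hm ⟨hax, hbx.le⟩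
    have h0 : w s ≠ 0 := by
      intro h0
      rw [h0] at h3
      nlinarith [sq_nonneg ℓ]
    have hsa : a < s := lt_of_le_of_ne hs.1 (by rintro rfl; exact h0 ha)
    have hsb : s < b := lt_of_le_of_ne hs.2 (by rintro rfl; linarith)
    exact ⟨s, hsa, good_of_max h1 h2 hV (hm.isLocalMax (Icc_mem_nhds hsa hsb)) h0⟩
  · push Not at hx
    by_cases hl : ℓ = 0
    · left
      intro x hax
      have := hx x hax
      rw [hl] at this
      nlinarith
    · right
      have ht : Tendsto (fun x => w x * ((K - V x) * w x - w2 x)) atTop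
          (𝓝 (ℓ * ((K - 0) * ℓ - 0))) :=
        hwt.mul (((tendsto_const_nhds.sub hVt).mul hwt).sub hw2)
      have hp : 0 < ℓ * ((K - 0) * ℓ - 0) := by
        have : 0 < ℓ ^ 2 := by positivity
        nlinarith
      obtain ⟨s, hs1, hs2⟩ := ((ht.eventually_const_lt hp).and (eventually_gt_atTop a)).exists
      exact ⟨s, hs2, hs1⟩

/-- to the left of a zero: good point or identically zero -/
lemma good_Iic (h1 : ∀ x, HasDerivAt w (w1 x) x) (h2 : ∀ x, HasDerivAt w1 (w2 x) x)
    (hV : ∀ x, V x < K) {ℓ : ℝ} (hVt : Tendsto V atBot (𝓝 0)) (hwt : Tendsto w atBot (𝓝 ℓ))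
    (hw2 : Tendsto w2 atBot (𝓝 0)) (hK : 0 < K) {a : ℝ} (ha : w a = 0) :
    (∀ x, x ≤ a → w x = 0) ∨ ∃ s, s < a ∧ Gd w w2 V K s := by
  have b1 : ∀ x, HasDerivAt (fun x => w (-x)) ((fun x => - w1 (-x)) x) x := by
    intro x
    have := HasDerivAt.comp x (h1 (-x)) (hasDerivAt_neg x)
    simpa [Function.comp_def] using this
  have b2 : ∀ x, HasDerivAt (fun x => - w1 (-x)) ((fun x => w2 (-x)) x) x := by
    intro x
    have := (HasDerivAt.comp x (h2 (-x)) (hasDerivAt_neg x)).fun_neg
    simpa [Function.comp_def] using this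
  rcases good_Ici (w := fun x => w (-x)) (w1 := fun x => - w1 (-x)) (w2 := fun x => w2 (-x))
    (V := fun x => V (-x)) b1 b2 (fun x => hV (-x)) (hVt.comp tendsto_neg_atTop_atBot)
    (hwt.comp tendsto_neg_atTop_atBot) (hw2.comp tendsto_neg_atTop_atBot) hK (a := -a)
    (by simpa using ha) with h | ⟨s, hs, hg⟩
  · left
    intro x hx
    have := h (-x) (by linarith)
    simpa using this
  · right
    exact ⟨-s, by linarith, by simpa [Gd] using hg⟩

/-- a zero of `w` between two good points gives a zero of `(K - V) w - w''` -/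
lemma zero_between (h1 : ∀ x, HasDerivAt w (w1 x) x) (h2 : ∀ x, HasDerivAt w1 (w2 x) x)
    (hV : ∀ x, V x < K) (hcV : Continuous V) (hc2 : Continuous w2) {s s' t : ℝ}
    (hg : Gd w w2 V K s) (hg' : Gd w w2 V K s') (hst : s < t) (hts : t < s') (ht : w t = 0) :
    ∃ z, s < z ∧ z < s' ∧ (K - V z) * w z - w2 z = 0 := by
  have hc : Continuous w := continuous_iff_continuousAt.2 fun x => (h1 x).continuousAt
  have hcf : Continuous (fun x => (K - V x) * w x - w2 x) :=
    ((continuous_const.sub hcV).mul hc).sub hc2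
  set f : ℝ → ℝ := fun x => (K - V x) * w x - w2 x with hf
  have hg : 0 < w s * f s := hg
  have hg' : 0 < w s' * f s' := hg'
  show ∃ z, s < z ∧ z < s' ∧ f z = 0
  have fs0 : f s ≠ 0 := by rintro h; rw [h] at hg; simp at hg
  have fs0' : f s' ≠ 0 := by rintro h; rw [h] at hg'; simp at hg'
  -- opposite signs or equal signs
  have key : ∀ σ : ℝ, (σ = 1 ∨ σ = -1) → 0 < σ * f s →
      ∃ z, s < z ∧ z < s' ∧ f z = 0 := by
    intro σ hσ h3
    by_cases h4 : σ * f s' < 0
    · obtain ⟨z, hz, hz0⟩ := intermediate_value_Icc' (hst.trans hts).le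
        ((continuous_const.mul hcf).continuousOn (s := Icc s s')) (f := fun x => σ * f x)
        (show (0 : ℝ) ∈ Icc (σ * f s') (σ * f s) from ⟨h4.le, h3.le⟩)
      have hz0' : f z = 0 := by
        rcases hσ with h | h <;> rw [h] at hz0 <;> simpa using hz0
      exact ⟨z, lt_of_le_of_ne hz.1 (by rintro rfl; exact fs0 hz0'),
        lt_of_le_of_ne hz.2 (by rintro rfl; exact fs0' hz0'), hz0'⟩
    · push Not at h4
      have h5 : 0 < σ * f s' := lt_of_le_of_ne h4 (by
        intro h; rcases hσ with h' | h' <;> rw [h'] at h <;> apply fs0' <;> linarith)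
      have hσ2 : σ * σ = 1 := by rcases hσ with h | h <;> rw [h] <;> norm_num
      have h6 : 0 < σ * w s := by
        have : (σ * w s) * (σ * f s) = w s * f s := by linear_combination (w s * f s) * hσ2
        rw [← this] at hg
        exact (pos_iff_pos_of_mul_pos hg).2 h3
      have h7 : 0 < σ * w s' := by
        have : (σ * w s') * (σ * f s') = w s' * f s' := by
          linear_combination (w s' * f s') * hσ2
        rw [← this] at hg'
        exact (pos_iff_pos_of_mul_pos hg').2 h5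
      obtain ⟨p, hp, hm⟩ := isCompact_Icc.exists_isMaxOn (nonempty_Icc.2 (hst.trans hts).le)
        ((continuous_const.mul hc).continuousOn (s := Icc s s')) (f := fun x => (-σ) * w x)
      have h8 : (-σ) * w t ≤ (-σ) * w p := hm ⟨hst.le, hts.le⟩
      rw [ht] at h8
      have h9 : s < p := lt_of_le_of_ne hp.1 (by rintro rfl; linarith)
      have h10 : p < s' := lt_of_le_of_ne hp.2 (by rintro rfl; linarith)
      have h11 := sd_max (g := fun x => (-σ) * w x) (g1 := fun x => (-σ) * w1 x)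
        (g2 := fun x => (-σ) * w2 x) (fun x => (h1 x).const_mul _) (fun x => (h2 x).const_mul _)
        (hm.isLocalMax (Icc_mem_nhds h9 h10))
      have h12 : σ * f p ≤ 0 := by
        have hVp := hV p
        have : σ * f p = (K - V p) * (σ * w p) - σ * w2 p := by simp only [hf]; ring
        rw [this]
        have : (K - V p) * (σ * w p) ≤ 0 :=
          mul_nonpos_of_nonneg_of_nonpos (by linarith) (by linarith)
        linarith
      obtain ⟨z, hz, hz0⟩ := intermediate_value_Icc' h9.le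
        ((continuous_const.mul hcf).continuousOn (s := Icc s p)) (f := fun x => σ * f x)
        (show (0 : ℝ) ∈ Icc (σ * f p) (σ * f s) from ⟨h12, h3.le⟩)
      have hz0' : f z = 0 := by
        rcases hσ with h | h <;> rw [h] at hz0 <;> simpa using hz0
      exact ⟨z, lt_of_le_of_ne hz.1 (by rintro rfl; exact fs0 hz0'), lt_of_le_of_lt hz.2 h10, hz0'⟩
  rcases lt_or_gt_of_ne fs0 with h | h
  · exact key (-1) (Or.inr rfl) (by linarith)
  · exact key 1 (Or.inl rfl) (by linarith)

/-- an interval on which `w` vanishes gives many zeros -/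
lemma many (h1 : ∀ x, HasDerivAt w (w1 x) x) (h2 : ∀ x, HasDerivAt w1 (w2 x) x) {a b : ℝ}
    (hab : a < b) (h0 : ∀ x ∈ Icc a b, w x = 0) (m : ℕ) :
    NZ (fun x => (K - V x) * w x - w2 x) m := by
  have hinf : (Ioo a b).Infinite := Ioo_infinite hab
  obtain ⟨S, hS, hcard⟩ := hinf.exists_subset_card_eq m
  refine ⟨S, hcard, fun t ht => ?_⟩
  have htI : t ∈ Ioo a b := hS ht
  have hn : Ioo a b ∈ 𝓝 t := Ioo_mem_nhds htI.1 htI.2
  have e0 : w =ᶠ[𝓝 t] fun _ => 0 := by
    filter_upwards [hn] with x hx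
    exact h0 x ⟨hx.1.le, hx.2.le⟩
  have e1 : w1 =ᶠ[𝓝 t] fun _ => 0 := by
    filter_upwards [e0.eventuallyEq_nhds] with x hx
    have := hx.deriv_eq
    rw [(h1 x).deriv] at this
    simpa using this
  have e2 : w2 t = 0 := by
    have := e1.deriv_eq
    rw [(h2 t).deriv] at this
    simpa using this
  simp only
  rw [e2, e0.self_of_nhds]
  ring

theorem line : S_LINE := by
  intro w w1 w2 V K ℓ₁ ℓ₂ h1 h2 hc2 hcV hK hV hVt hVb hwt hwb hw2t hw2b m hm
  by_cases hint : ∃ a b, a < b ∧ ∀ x ∈ Icc a b, w x = 0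
  · obtain ⟨a, b, hab, h0⟩ := hint
    exact many h1 h2 hab h0 m
  push Not at hint
  obtain ⟨S, hcard, hS⟩ := hm
  rcases Nat.eq_zero_or_pos m with rfl | hmp
  · exact ⟨∅, rfl, by simp⟩
  have hne : S.Nonempty := Finset.card_pos.1 (hcard ▸ hmp)
  -- outer good points
  obtain ⟨s₀, hs₀, hg₀⟩ : ∃ s₀, s₀ < S.min' hne ∧ Gd w w2 V K s₀ := by
    have hz : w (S.min' hne) = 0 := hS _ (S.min'_mem hne)
    rcases good_Iic h1 h2 hV hVb hwb hw2b hK hz with h | h
    · exfalso
      obtain ⟨x, hx, hx0⟩ := hint (S.min' hne - 1) (S.min' hne) (by linarith)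
      exact hx0 (h x hx.2)
    · exact h
  obtain ⟨s₁, hs₁, hg₁⟩ : ∃ s₁, S.max' hne < s₁ ∧ Gd w w2 V K s₁ := by
    have hz : w (S.max' hne) = 0 := hS _ (S.max'_mem hne)
    rcases good_Ici h1 h2 hV hVt hwt hw2t hK hz with h | h
    · exfalso
      obtain ⟨x, hx, hx0⟩ := hint (S.max' hne) (S.max' hne + 1) (by linarith)
      exact hx0 (h x hx.1)
    · exact h
  have main : ∀ n : ℕ, ∀ S : Finset ℝ, S.card = n → (∀ t ∈ S, w t = 0) → ∀ s₁ : ℝ,
      Gd w w2 V K s₁ → (∀ t ∈ S, s₀ < t ∧ t < s₁) →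
      ∃ T : Finset ℝ, T.card = n ∧
        ∀ x ∈ T, (K - V x) * w x - w2 x = 0 ∧ s₀ < x ∧ x < s₁ := by
    intro n
    induction n with
    | zero => intro S _ _ s₁ _ _; exact ⟨∅, rfl, by simp⟩
    | succ n ih =>
      intro S hc hS s₁ hg₁ hb
      have hne : S.Nonempty := Finset.card_pos.1 (by omega)
      set t := S.max' hne with ht
      have htS : t ∈ S := S.max'_mem hne
      have hc' : (S.erase t).card = n := by rw [Finset.card_erase_of_mem htS, hc]; rfl
      by_cases hn : (S.erase t).Nonempty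
      · set t' := (S.erase t).max' hn with ht'
        have ht'S : t' ∈ S.erase t := (S.erase t).max'_mem hn
        have htt : t' < t := lt_of_le_of_ne (S.le_max' _ (Finset.mem_of_mem_erase ht'S))
          (Finset.ne_of_mem_erase ht'S)
        rcases good_Icc h1 h2 hV htt (hS _ (Finset.mem_of_mem_erase ht'S)) (hS _ htS) with
          h | ⟨s, hs1, hs2, hg⟩
        · exfalso
          obtain ⟨x, hx, hx0⟩ := hint t' t htt
          exact hx0 (h x hx)
        · obtain ⟨T, hT, hTp⟩ := ih (S.erase t) hc' (fun u hu => hS u (Finset.mem_of_mem_erase hu))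
            s hg (fun u hu => ⟨(hb u (Finset.mem_of_mem_erase hu)).1,
              lt_of_le_of_lt ((S.erase t).le_max' u hu) hs1⟩)
          obtain ⟨z, hz1, hz2, hz0⟩ := zero_between h1 h2 hV hcV hc2 hg hg₁ hs2 (hb t htS).2
            (hS t htS)
          have hzT : z ∉ T := fun hzT => by have := (hTp z hzT).2.2; linarith
          refine ⟨insert z T, by rw [Finset.card_insert_of_notMem hzT, hT], ?_⟩
          intro x hx
          rcases Finset.mem_insert.1 hx with rfl | hx
          · refine ⟨hz0, ?_, hz2⟩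
            have := (hb t' (Finset.mem_of_mem_erase ht'S)).1
            linarith
          · obtain ⟨a1, a2, a3⟩ := hTp x hx
            exact ⟨a1, a2, by have := (hb t htS).2; linarith⟩
      · have hn0 : n = 0 := by
          rw [← hc', Finset.not_nonempty_iff_eq_empty.1 hn]; rfl
        subst hn0
        obtain ⟨z, hz1, hz2, hz0⟩ := zero_between h1 h2 hV hcV hc2 hg₀ hg₁ (hb t htS).1
          (hb t htS).2 (hS t htS)
        exact ⟨{z}, rfl, by intro x hx; rw [Finset.mem_singleton.1 hx]; exact ⟨hz0, hz1, hz2⟩⟩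
  obtain ⟨T, hT, hTp⟩ := main m S hcard hS s₁ hg₁ (fun t ht =>
    ⟨lt_of_lt_of_le hs₀ (S.min'_le t ht), lt_of_le_of_lt (S.le_max' t ht) hs₁⟩)
  exact ⟨T, hT, fun t ht => (hTp t ht).1⟩

end Pool.Agent.Y495.NL
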